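import Pool.Agent.Helper51.FreeConcreteL1

/-!
# The Lipschitz-free space over `ℓ₁` is not complemented in its bidual
-/

set_option autoImplicit false

namespace Pool.Agent.Results.MP_b1f597_an.Full

open Pool.Agent.Helper51.FreeC

/-- Let `F(ℓ₁)` be the closed linear span of the evaluations in the dual of `Lip₀(ℓ₁)`. There is no
bounded linear projection of the bidual of `F(ℓ₁)` onto the canonical copy of `F(ℓ₁)`. -/
theorem result : ¬ ComplementedInBidual (FreeSpace (lp (fun _ : ℕ => ℝ) 1) 0) :=
  not_complemented exists_sysL

end Pool.Agent.Results.MP_b1f597_an.Full
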